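import Mathlib

/-!
Milman's partial converse of the Krein-Milman theorem (the proof is the one of the starting library,
`Pool.Agent.H100R2.MH.t02`).
-/

set_option autoImplicit false

namespace Pool.Agent.Q184.PI

open Topology Filter Set

universe u

theorem mjoin {E : Type u} [AddCommGroup E] [Module ℝ E] [TopologicalSpace E]
    [IsTopologicalAddGroup E] [ContinuousSMul ℝ E] (s t : Set E) (hs : IsCompact s) (ht : IsCompact t) :
    IsCompact (convexJoin ℝ s t) := by
  have h1 : convexJoin ℝ s t =
      (fun p : ℝ × E × E => (1 - p.1) • p.2.1 + p.1 • p.2.2) '' (Icc (0 : ℝ) 1 ×ˢ s ×ˢ t) := by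
    ext x
    rw [mem_convexJoin]
    constructor
    · rintro ⟨a, ha, b, hb, hx⟩
      rw [segment_eq_image] at hx
      obtain ⟨θ, hθ, rfl⟩ := hx
      exact ⟨(θ, a, b), ⟨hθ, ha, hb⟩, rfl⟩
    · rintro ⟨⟨θ, a, b⟩, ⟨hθ, ha, hb⟩, rfl⟩
      refine ⟨a, ha, b, hb, ?_⟩
      rw [segment_eq_image]
      exact ⟨θ, hθ, rfl⟩
  rw [h1]
  refine (isCompact_Icc.prod (hs.prod ht)).image ?_
  exact ((continuous_const.sub continuous_fst).smul (continuous_fst.comp continuous_snd)).add
    (continuous_fst.smul (continuous_snd.comp continuous_snd))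

theorem munion {E : Type u} [AddCommGroup E] [Module ℝ E] [TopologicalSpace E]
    [IsTopologicalAddGroup E] [ContinuousSMul ℝ E] (t : Finset E) (C : E → Set E)
    (hc : ∀ k ∈ t, IsCompact (C k)) (hv : ∀ k ∈ t, Convex ℝ (C k)) :
    IsCompact (convexHull ℝ (⋃ k ∈ t, C k)) := by
  classical
  induction t using Finset.induction_on with
  | empty => simp
  | insert a s ha ih =>
    have ih' := ih (fun k hk => hc k (Finset.mem_insert_of_mem hk))
      (fun k hk => hv k (Finset.mem_insert_of_mem hk))
    rw [Finset.set_biUnion_insert]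
    have hCa := hc a (Finset.mem_insert_self a s)
    have hVa := hv a (Finset.mem_insert_self a s)
    rcases (C a).eq_empty_or_nonempty with h0 | h0
    · rw [h0, empty_union]; exact ih'
    · rcases (⋃ k ∈ s, C k).eq_empty_or_nonempty with h1 | h1
      · rw [h1, union_empty, hVa.convexHull_eq]; exact hCa
      · rw [convexHull_union h0 h1, hVa.convexHull_eq]
        exact mjoin _ _ hCa ih'

/-- Milman's theorem (partial converse of Krein-Milman). -/
theorem milman {E : Type u} [AddCommGroup E] [Module ℝ E] [TopologicalSpace E]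
    [IsTopologicalAddGroup E] [ContinuousSMul ℝ E] [LocallyConvexSpace ℝ E] [T2Space E]
    {Q K : Set E} (hQ : IsCompact Q) (hQc : Convex ℝ Q) (hK : IsCompact K) (hKQ : K ⊆ Q)
    (hull : Q ⊆ closure (convexHull ℝ K)) {y : E} (hy : y ∈ Q.extremePoints ℝ) : y ∈ K := by
  by_contra hyK
  have hKc : IsClosed K := hK.isClosed
  have hU : {v : E | y + v ∉ K} ∈ 𝓝 (0 : E) := by
    have hcont : Continuous (fun v : E => y + v) := by fun_prop
    have : (fun v : E => y + v) ⁻¹' Kᶜ ∈ 𝓝 (0 : E) :=
      hcont.continuousAt.preimage_mem_nhds (hKc.isOpen_compl.mem_nhds (by simpa using hyK))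
    exact this
  obtain ⟨W, hW, hWc, hWU⟩ := exists_mem_nhds_isClosed_subset hU
  obtain ⟨C, ⟨hC0, hCv⟩, hCW⟩ := (LocallyConvexSpace.convex_basis_zero ℝ E).mem_iff.1 hW
  have hCW' : closure C ⊆ W := closure_minimal hCW hWc
  set V : Set E := closure C ∩ (-closure C) with hV
  have hV0 : V ∈ 𝓝 (0 : E) := by
    refine inter_mem (mem_of_superset hC0 subset_closure) ?_
    have hneg : Continuous (fun v : E => -v) := by fun_prop
    have := hneg.continuousAt.preimage_mem_nhds (x := (0 : E))
      (by rw [neg_zero]; exact mem_of_superset hC0 subset_closure : closure C ∈ 𝓝 (-(0 : E)))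
    exact this
  have hVcl : IsClosed V := isClosed_closure.inter isClosed_closure.neg
  have hVcv : Convex ℝ V := hCv.closure.inter hCv.closure.neg
  have hVneg : ∀ v ∈ V, -v ∈ V := fun v hv => ⟨hv.2, by simpa using hv.1⟩
  have hVU : ∀ v ∈ V, y + v ∉ K := fun v hv => hWU (hCW' hv.1)
  -- the cover
  obtain ⟨t, htK, ht⟩ := hK.elim_nhds_subcover (fun k => {v | v - k ∈ V}) (fun k _ => by
    have hs : Continuous (fun v : E => v - k) := by fun_prop
    exact hs.continuousAt.preimage_mem_nhds (by rw [sub_self]; exact hV0))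
  set P : E → Set E := fun k => closure (convexHull ℝ (K ∩ {v | v - k ∈ V})) with hP
  have hcvk : ∀ k : E, Convex ℝ {v : E | v - k ∈ V} := by
    intro k
    have : {v : E | v - k ∈ V} = (fun v => v + k) '' V := by
      ext v
      constructor
      · intro hv; exact ⟨v - k, hv, by simp⟩
      · rintro ⟨w, hw, rfl⟩; simpa using hw
    rw [this]
    simpa using hVcv.add (convex_singleton k)
  have hclk : ∀ k : E, IsClosed {v : E | v - k ∈ V} := fun k =>
    hVcl.preimage (by fun_prop : Continuous (fun v : E => v - k))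
  have hPQ : ∀ k, P k ⊆ Q := fun k =>
    closure_minimal (convexHull_min (inter_subset_left.trans hKQ) hQc) hQ.isClosed
  have hPV : ∀ k, P k ⊆ {v | v - k ∈ V} := fun k =>
    closure_minimal (convexHull_min inter_subset_right (hcvk k)) (hclk k)
  have hPc : ∀ k ∈ t, IsCompact (P k) := fun k _ => hQ.of_isClosed_subset isClosed_closure (hPQ k)
  have hPv : ∀ k ∈ t, Convex ℝ (P k) := fun k _ => (convex_convexHull ℝ _).closure
  have hhull := munion t P hPc hPv
  have hQhull : Q ⊆ convexHull ℝ (⋃ k ∈ t, P k) := by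
    refine hull.trans (closure_minimal (convexHull_min ?_ (convex_convexHull ℝ _)) hhull.isClosed)
    intro x hx
    have hx' := ht hx
    simp only [mem_iUnion] at hx'
    obtain ⟨k, hk, hxk⟩ := hx'
    refine subset_convexHull ℝ _ ?_
    simp only [mem_iUnion]
    exact ⟨k, hk, subset_closure (subset_convexHull ℝ _ ⟨hx, hxk⟩)⟩
  have hsub : convexHull ℝ (⋃ k ∈ t, P k) ⊆ Q := by
    refine convexHull_min ?_ hQc
    intro x hx
    simp only [mem_iUnion] at hx
    obtain ⟨k, _, hxk⟩ := hx
    exact hPQ k hxk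
  have heq : Q = convexHull ℝ (⋃ k ∈ t, P k) := hQhull.antisymm hsub
  rw [heq] at hy
  have hyP := extremePoints_convexHull_subset hy
  simp only [mem_iUnion] at hyP
  obtain ⟨k, hk, hyk⟩ := hyP
  have h1 : y - k ∈ V := hPV k hyk
  have h2 := hVU _ (hVneg _ h1)
  apply h2
  have : y + -(y - k) = k := by abel
  rw [this]
  exact htK k hk

end Pool.Agent.Q184.PI
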