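import Mathlib
import Pool.Agent.Q184.PI.Milman

/-!
Affine flows, affine extensions and proximally irreducible extensions.
-/

set_option autoImplicit false

namespace Pool.Agent.Q184.PI

open Topology Filter Set

universe u v w z

/-- `f` is affine on the set `K`. -/
def AffOn {E : Type u} {F : Type w} [AddCommGroup E] [Module ℝ E] [AddCommGroup F] [Module ℝ F]
    (K : Set E) (f : E → F) : Prop :=
  ∀ x ∈ K, ∀ y ∈ K, ∀ s t : ℝ, 0 ≤ s → 0 ≤ t → s + t = 1 → f (s • x + t • y) = s • f x + t • f y

/-- An affine `G`-flow: a compact convex subset `K` of a Hausdorff locally convex real topological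
vector space `E` with a continuous action of `G` on `K` by affine homeomorphisms (the action is given
by maps `E → E` of which only the restrictions to `K` matter). -/
structure AffineFlow (G : Type v) [Group G] [TopologicalSpace G] where
  E : Type u
  [acg : AddCommGroup E]
  [mod : Module ℝ E]
  [top : TopologicalSpace E]
  [tag : IsTopologicalAddGroup E]
  [csm : ContinuousSMul ℝ E]
  [lcs : LocallyConvexSpace ℝ E]
  [t2s : T2Space E]
  K : Set E
  compact : IsCompact K
  convex : Convex ℝ K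
  act : G → E → E
  maps : ∀ g, MapsTo (act g) K K
  one : ∀ x ∈ K, act 1 x = x
  mul : ∀ g h, ∀ x ∈ K, act (g * h) x = act g (act h x)
  cont : ContinuousOn (fun p : G × E => act p.1 p.2) (univ ×ˢ K)
  affine : ∀ g, AffOn K (act g)

attribute [instance] AffineFlow.acg AffineFlow.mod AffineFlow.top AffineFlow.tag AffineFlow.csm
  AffineFlow.lcs AffineFlow.t2s

variable {G : Type v} [Group G] [TopologicalSpace G]

/-- The closure of the set of extreme points. -/
def AffineFlow.X (F : AffineFlow.{u} G) : Set F.E := closure (F.K.extremePoints ℝ)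

/-- An affine subflow: a compact convex invariant subset. -/
structure IsSubflow (F : AffineFlow.{u} G) (C : Set F.E) : Prop where
  sub : C ⊆ F.K
  compact : IsCompact C
  convex : Convex ℝ C
  inv : ∀ g, MapsTo (F.act g) C C

/-- An affine extension `L → K`: a continuous affine equivariant surjection. -/
structure Ext (L : AffineFlow.{u} G) (K : AffineFlow.{w} G) where
  toFun : L.E → K.E
  maps : MapsTo toFun L.K K.K
  surj : SurjOn toFun L.K K.K
  cont : ContinuousOn toFun L.K
  affine : AffOn L.K toFun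
  equiv : ∀ g, ∀ x ∈ L.K, toFun (L.act g x) = K.act g (toFun x)

/-- The composition of two affine extensions. -/
def Ext.comp {P : AffineFlow.{z} G} {L : AffineFlow.{u} G} {K : AffineFlow.{w} G} (φ : Ext L K)
    (ψ : Ext P L) : Ext P K where
  toFun := fun x => φ.toFun (ψ.toFun x)
  maps := fun _ hx => φ.maps (ψ.maps hx)
  surj := φ.surj.comp ψ.surj
  cont := φ.cont.comp ψ.cont ψ.maps
  affine := fun x hx y hy s t hs ht hst => by
    beta_reduce
    rw [ψ.affine x hx y hy s t hs ht hst,
      φ.affine _ (ψ.maps hx) _ (ψ.maps hy) s t hs ht hst]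
  equiv := fun g x hx => by
    beta_reduce
    rw [ψ.equiv g x hx, φ.equiv g _ (ψ.maps hx)]

/-- The affine extension `φ : L → K` is proximally irreducible: an affine subflow `C` of `L` which
meets the (non closed) convex hull of `closure (ext L) ∩ φ⁻¹ {y}` for every `y` in `closure (ext K)`
is the whole of `L`. -/
def ProxIrr {L : AffineFlow.{u} G} {K : AffineFlow.{w} G} (φ : Ext L K) : Prop :=
  ∀ C : Set L.E, IsSubflow L C →
    (∀ y ∈ K.X, (C ∩ convexHull ℝ (L.X ∩ φ.toFun ⁻¹' {y})).Nonempty) → C = L.K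

/-! ### Generalities on affine maps on convex sets -/

section gen

variable {E : Type u} {F : Type w} [AddCommGroup E] [Module ℝ E] [AddCommGroup F] [Module ℝ F]

theorem AffOn.graph {K : Set E} {f : E → F} (hK : Convex ℝ K) (hf : AffOn K f) :
    Convex ℝ {p : E × F | p.1 ∈ K ∧ p.2 = f p.1} := by
  rintro ⟨x, a⟩ ⟨hx, ha⟩ ⟨y, b⟩ ⟨hy, hb⟩ s t hs ht hst
  refine ⟨hK hx hy hs ht hst, ?_⟩
  simp only at ha hb
  subst ha hb
  exact (hf x hx y hy s t hs ht hst).symm

theorem AffOn.sum {K : Set E} {f : E → F} (hK : Convex ℝ K) (hf : AffOn K f) {ι : Type}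
    (s : Finset ι) (t : ι → ℝ) (x : ι → E) (h0 : ∀ i ∈ s, 0 ≤ t i) (h1 : ∑ i ∈ s, t i = 1)
    (hx : ∀ i ∈ s, x i ∈ K) : f (∑ i ∈ s, t i • x i) = ∑ i ∈ s, t i • f (x i) := by
  have h := (AffOn.graph hK hf).sum_mem h0 h1 (z := fun i => (x i, f (x i)))
    (fun i hi => ⟨hx i hi, rfl⟩)
  have h2 := h.2
  simp only [Prod.snd_sum, Prod.fst_sum, Prod.smul_snd, Prod.smul_fst] at h2
  exact h2.symm

theorem AffOn.convex_preimage {K : Set E} {f : E → F} (hK : Convex ℝ K) (hf : AffOn K f)
    {T : Set F} (hT : Convex ℝ T) : Convex ℝ (K ∩ f ⁻¹' T) := by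
  rintro x ⟨hx, hx'⟩ y ⟨hy, hy'⟩ s t hs ht hst
  refine ⟨hK hx hy hs ht hst, ?_⟩
  show f _ ∈ T
  rw [hf x hx y hy s t hs ht hst]
  exact hT hx' hy' hs ht hst

theorem mapsTo_hull [TopologicalSpace E] [TopologicalSpace F] {K : Set E} {f : E → F}
    (hK : Convex ℝ K) (hKc : IsClosed K) (hc : ContinuousOn f K) (hf : AffOn K f) {S : Set E}
    (hS : S ⊆ K) {T : Set F} (hT : Convex ℝ T) (hTc : IsClosed T) (hST : MapsTo f S T) :
    MapsTo f (closure (convexHull ℝ S)) T := by
  have h1 : closure (convexHull ℝ S) ⊆ K ∩ f ⁻¹' T := by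
    apply closure_minimal
    · apply convexHull_min
      · intro x hx
        exact ⟨hS hx, hST hx⟩
      · exact hf.convex_preimage hK hT
    · exact hc.preimage_isClosed_of_isClosed hKc hTc
  intro x hx
  exact (h1 hx).2

/-- an extreme point of a closed fibre over an extreme point is extreme -/
theorem ext_fiber {K : Set E} {f : E → F} {K' : Set F} (hm : MapsTo f K K')
    (hf : AffOn K f) {y : F} (hy : y ∈ K'.extremePoints ℝ) {x : E}
    (hx : x ∈ {x ∈ K | f x = y}.extremePoints ℝ) : x ∈ K.extremePoints ℝ := by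
  rw [mem_extremePoints] at hx hy ⊢
  obtain ⟨⟨hxK, hxy⟩, hx2⟩ := hx
  refine ⟨hxK, ?_⟩
  intro a ha b hb hab
  obtain ⟨s, t, hs, ht, hst, hsum⟩ := hab
  have h1 : f x = s • f a + t • f b := by
    rw [← hsum]
    exact hf a ha b hb s t hs.le ht.le hst
  have h2 : y ∈ openSegment ℝ (f a) (f b) := ⟨s, t, hs, ht, hst, by rw [← h1, hxy]⟩
  have h3 := hy.2 _ (hm ha) _ (hm hb) h2
  exact hx2 a ⟨ha, h3.1⟩ b ⟨hb, h3.2⟩ ⟨s, t, hs, ht, hst, hsum⟩

/-- atoms of a convex combination giving an extreme point -/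
theorem ext_atoms {K : Set E} (hK : Convex ℝ K) {y : E} (hy : y ∈ K.extremePoints ℝ) {n : ℕ}
    (t : Fin n → ℝ) (x : Fin n → E) (h0 : ∀ i, 0 ≤ t i) (h1 : ∑ i, t i = 1) (hx : ∀ i, x i ∈ K)
    (hsum : ∑ i, t i • x i = y) (i : Fin n) (hi : 0 < t i) : x i = y := by
  classical
  rw [mem_extremePoints] at hy
  by_cases hi1 : t i = 1
  · have h2 : ∀ j ∈ Finset.univ.erase i, t j = 0 := by
      have h3 : ∑ j ∈ Finset.univ.erase i, t j = 0 := by
        have := Finset.add_sum_erase Finset.univ t (Finset.mem_univ i)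
        linarith
      exact (Finset.sum_eq_zero_iff_of_nonneg (fun j _ => h0 j)).mp h3
    rw [← Finset.add_sum_erase Finset.univ (fun j => t j • x j) (Finset.mem_univ i)] at hsum
    have h4 : ∑ j ∈ Finset.univ.erase i, t j • x j = 0 := by
      apply Finset.sum_eq_zero
      intro j hj
      rw [h2 j hj, zero_smul]
    rw [h4, add_zero, hi1, one_smul] at hsum
    exact hsum
  · have hlt : t i < 1 := by
      refine lt_of_le_of_ne ?_ hi1
      rw [← h1]
      exact Finset.single_le_sum (fun j _ => h0 j) (Finset.mem_univ i)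
    -- the rest
    let r : E := ∑ j ∈ Finset.univ.erase i, (t j / (1 - t i)) • x j
    have hpos : 0 < 1 - t i := by linarith
    have hr : r ∈ K := by
      apply hK.sum_mem
      · intro j _
        exact div_nonneg (h0 j) hpos.le
      · rw [← Finset.sum_div]
        have := Finset.add_sum_erase Finset.univ t (Finset.mem_univ i)
        rw [div_eq_one_iff_eq hpos.ne']
        linarith
      · intro j _
        exact hx j
    have h5 : y ∈ openSegment ℝ (x i) r := by
      refine ⟨t i, 1 - t i, hi, hpos, by ring, ?_⟩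
      rw [← hsum, ← Finset.add_sum_erase Finset.univ (fun j => t j • x j) (Finset.mem_univ i)]
      congr 1
      simp only [r]
      rw [Finset.smul_sum]
      apply Finset.sum_congr rfl
      intro j _
      rw [smul_smul]
      congr 1
      field_simp
    exact (hy.2 _ (hx i) _ hr h5).1

end gen

/-! ### Basic facts on flows -/

theorem AffineFlow.closed (F : AffineFlow.{u} G) : IsClosed F.K := F.compact.isClosed

theorem AffineFlow.X_sub (F : AffineFlow.{u} G) : F.X ⊆ F.K :=
  closure_minimal extremePoints_subset F.closed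

theorem AffineFlow.X_closed (F : AffineFlow.{u} G) : IsClosed F.X := isClosed_closure

theorem AffineFlow.X_compact (F : AffineFlow.{u} G) : IsCompact F.X :=
  F.compact.of_isClosed_subset F.X_closed F.X_sub

theorem AffineFlow.act_cont (F : AffineFlow.{u} G) (g : G) : ContinuousOn (F.act g) F.K := by
  have h := F.cont.comp (f := fun x : F.E => (g, x)) (s := F.K)
    (continuous_const.prodMk continuous_id).continuousOn (fun x hx => ⟨trivial, hx⟩)
  exact h

theorem AffineFlow.inv_act (F : AffineFlow.{u} G) (g : G) {x : F.E} (hx : x ∈ F.K) :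
    F.act g⁻¹ (F.act g x) = x := by
  rw [← F.mul g⁻¹ g x hx, inv_mul_cancel, F.one x hx]

theorem AffineFlow.act_inv (F : AffineFlow.{u} G) (g : G) {x : F.E} (hx : x ∈ F.K) :
    F.act g (F.act g⁻¹ x) = x := by
  rw [← F.mul g g⁻¹ x hx, mul_inv_cancel, F.one x hx]

theorem AffineFlow.ext_inv (F : AffineFlow.{u} G) (g : G) :
    MapsTo (F.act g) (F.K.extremePoints ℝ) (F.K.extremePoints ℝ) := by
  intro x hx
  rw [mem_extremePoints] at hx ⊢
  refine ⟨F.maps g hx.1, ?_⟩
  intro a ha b hb hab
  obtain ⟨s, t, hs, ht, hst, hsum⟩ := hab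
  have h1 : x ∈ openSegment ℝ (F.act g⁻¹ a) (F.act g⁻¹ b) := by
    refine ⟨s, t, hs, ht, hst, ?_⟩
    rw [← F.affine g⁻¹ a ha b hb s t hs.le ht.le hst, hsum, F.inv_act g hx.1]
  have h2 := hx.2 _ (F.maps g⁻¹ ha) _ (F.maps g⁻¹ hb) h1
  constructor
  · rw [← h2.1, F.act_inv g ha]
  · rw [← h2.2, F.act_inv g hb]

theorem AffineFlow.X_inv (F : AffineFlow.{u} G) (g : G) : MapsTo (F.act g) F.X F.X := by
  intro x hx
  have h1 : ContinuousOn (F.act g) (closure (F.K.extremePoints ℝ)) :=
    (F.act_cont g).mono F.X_sub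
  have h2 := h1.image_closure
  exact closure_mono (F.ext_inv g).image_subset (h2 ⟨x, hx, rfl⟩)

/-- the closed convex hull of an invariant subset is a subflow -/
theorem hull_subflow (F : AffineFlow.{u} G) (S : Set F.E) (hS : S ⊆ F.K)
    (hinv : ∀ g, MapsTo (F.act g) S S) : IsSubflow F (closure (convexHull ℝ S)) where
  sub := closure_minimal (convexHull_min hS F.convex) F.closed
  compact := F.compact.of_isClosed_subset isClosed_closure
    (closure_minimal (convexHull_min hS F.convex) F.closed)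
  convex := (convex_convexHull ℝ S).closure
  inv := fun g => mapsTo_hull F.convex F.closed (F.act_cont g) (F.affine g) hS
    (convex_convexHull ℝ S).closure isClosed_closure
    (fun x hx => subset_closure (subset_convexHull ℝ S (hinv g hx)))

section ext

variable {L : AffineFlow.{u} G} {K : AffineFlow.{w} G}

theorem Ext.surj_ext (φ : Ext L K) : SurjOn φ.toFun (L.K.extremePoints ℝ) (K.K.extremePoints ℝ) := by
  intro y hy
  have h1 : IsCompact {x ∈ L.K | φ.toFun x = y} := by
    have h2 : {x ∈ L.K | φ.toFun x = y} = L.K ∩ φ.toFun ⁻¹' {y} := rfl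
    rw [h2]
    exact L.compact.of_isClosed_subset
      (φ.cont.preimage_isClosed_of_isClosed L.closed isClosed_singleton) inter_subset_left
  have h3 : {x ∈ L.K | φ.toFun x = y}.Nonempty := by
    obtain ⟨x, hx, hxy⟩ := φ.surj hy.1
    exact ⟨x, hx, hxy⟩
  obtain ⟨x, hx⟩ := h1.extremePoints_nonempty h3
  exact ⟨x, ext_fiber φ.maps φ.affine hy hx, hx.1.2⟩

theorem Ext.surj_X (φ : Ext L K) : K.X ⊆ φ.toFun '' L.X := by
  apply closure_minimal
  · intro y hy
    obtain ⟨x, hx, hxy⟩ := φ.surj_ext hy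
    exact ⟨x, subset_closure hx, hxy⟩
  · exact (L.X_compact.image_of_continuousOn (φ.cont.mono L.X_sub)).isClosed

/-- Lemma A: a proximally irreducible extension maps `closure (ext L)` to `closure (ext K)`. -/
theorem ProxIrr.maps_X {φ : Ext L K} (hφ : ProxIrr φ) : MapsTo φ.toFun L.X K.X := by
  let S : Set L.E := L.X ∩ φ.toFun ⁻¹' K.X
  have hScl : IsClosed S :=
    (φ.cont.mono L.X_sub).preimage_isClosed_of_isClosed L.X_closed K.X_closed
  have hSK : S ⊆ L.K := fun x hx => L.X_sub hx.1
  have hinv : ∀ g, MapsTo (L.act g) S S := by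
    intro g x hx
    refine ⟨L.X_inv g hx.1, ?_⟩
    show φ.toFun (L.act g x) ∈ K.X
    rw [φ.equiv g x (hSK hx)]
    exact K.X_inv g hx.2
  have hC := hull_subflow L S hSK hinv
  have heq := hφ _ hC (by
    intro y hy
    obtain ⟨x, hx, hxy⟩ := φ.surj_X hy
    have hxS : x ∈ S := ⟨hx, by show φ.toFun x ∈ K.X; rw [hxy]; exact hy⟩
    exact ⟨x, subset_closure (subset_convexHull ℝ _ hxS), subset_convexHull ℝ _ ⟨hx, hxy⟩⟩)
  have h1 : L.K.extremePoints ℝ ⊆ S := by
    intro x hx
    exact milman L.compact L.convex (L.compact.of_isClosed_subset hScl hSK) hSK heq.ge hx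
  have h2 : L.X ⊆ S := closure_minimal h1 hScl
  intro x hx
  exact (h2 hx).2

end ext

end Pool.Agent.Q184.PI
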