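import Mathlib
import Pool.Agent.Q184.PI.Defs

/-!
The steps of the proof that proximally irreducible extensions compose.
-/

set_option autoImplicit false

namespace Pool.Agent.Q184.PI

open Topology Filter Set

universe u v w z

variable {G : Type v} [Group G] [TopologicalSpace G]

/-- The largest subflow on which `a ≤ 0`. -/
def Sub (P : AffineFlow.{u} G) (a : P.E → ℝ) : Set P.E := {p ∈ P.K | ∀ g, a (P.act g p) ≤ 0}

theorem sub_subflow (P : AffineFlow.{u} G) (a : P.E → ℝ) (hc : ContinuousOn a P.K)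
    (ha : AffOn P.K a) : IsSubflow P (Sub P a) where
  sub := fun _ hp => hp.1
  compact := by
    have h : Sub P a = P.K ∩ ⋂ g, (P.K ∩ (fun p => a (P.act g p)) ⁻¹' (Iic 0)) := by
      ext p
      simp only [Sub, mem_ofPred_eq, mem_inter_iff, mem_iInter, mem_preimage, mem_Iic]
      constructor
      · rintro ⟨h1, h2⟩
        exact ⟨h1, fun g => ⟨h1, h2 g⟩⟩
      · rintro ⟨h1, h2⟩
        exact ⟨h1, fun g => (h2 g).2⟩
    rw [h]
    apply P.compact.inter_right
    apply isClosed_iInter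
    intro g
    exact (hc.comp (P.act_cont g) (P.maps g)).preimage_isClosed_of_isClosed P.closed isClosed_Iic
  convex := by
    rintro x ⟨hx, hx'⟩ y ⟨hy, hy'⟩ s t hs ht hst
    refine ⟨P.convex hx hy hs ht hst, fun g => ?_⟩
    rw [P.affine g x hx y hy s t hs ht hst, ha _ (P.maps g hx) _ (P.maps g hy) s t hs ht hst]
    have h1 := hx' g
    have h2 := hy' g
    simp only [smul_eq_mul]
    nlinarith
  inv := by
    rintro g p ⟨hp, hp'⟩
    refine ⟨P.maps g hp, fun h => ?_⟩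
    rw [← P.mul h g p hp]
    exact hp' _

section comb

variable {F : Type w}

/-- Convex combinations of `n + 1` atoms of `closure (ext P)` in one fibre of `q`, lying in `C`. -/
def BB (P : AffineFlow.{u} G) (C : Set P.E) (q : P.E → F) (n : ℕ) :
    Set ((Fin (n + 1) → ℝ) × (Fin (n + 1) → P.E)) :=
  {z | z.1 ∈ stdSimplex ℝ (Fin (n + 1)) ∧ (∀ i, z.2 i ∈ P.X) ∧ (∀ i, q (z.2 i) = q (z.2 0)) ∧
    ∑ i, z.1 i • z.2 i ∈ C}

theorem BB_compact [TopologicalSpace F] [T2Space F] (P : AffineFlow.{u} G) (C : Set P.E)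
    (hC : IsClosed C) (q : P.E → F) (hq : ContinuousOn q P.X) (n : ℕ) : IsCompact (BB P C q n) := by
  let D : Set ((Fin (n + 1) → ℝ) × (Fin (n + 1) → P.E)) :=
    stdSimplex ℝ (Fin (n + 1)) ×ˢ (Set.univ.pi fun _ => P.X)
  have hD : IsCompact D := (isCompact_stdSimplex ℝ (Fin (n + 1))).prod
    (isCompact_univ_pi fun _ => P.X_compact)
  have hDc : IsClosed D := hD.isClosed
  have hev : ∀ i : Fin (n + 1), ContinuousOn
      (fun z : (Fin (n + 1) → ℝ) × (Fin (n + 1) → P.E) => q (z.2 i)) D := by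
    intro i
    refine hq.comp (f := fun z : (Fin (n + 1) → ℝ) × (Fin (n + 1) → P.E) => z.2 i) ?_ ?_
    · exact ((continuous_apply i).comp continuous_snd).continuousOn
    · intro z hz
      exact hz.2 i trivial
  have h : BB P C q n = D ∩ ((⋂ i, (D ∩ (fun z => (q (z.2 i), q (z.2 0))) ⁻¹' (diagonal F))) ∩
      (fun z => ∑ i, z.1 i • z.2 i) ⁻¹' C) := by
    ext z
    simp only [BB, mem_ofPred_eq, mem_inter_iff, mem_iInter, mem_preimage, mem_diagonal_iff]
    constructor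
    · rintro ⟨h1, h2, h3, h4⟩
      have hz : z ∈ D := ⟨h1, fun i _ => h2 i⟩
      exact ⟨hz, fun i => ⟨hz, h3 i⟩, h4⟩
    · rintro ⟨hz, h3, h4⟩
      exact ⟨hz.1, fun i => hz.2 i trivial, fun i => (h3 i).2, h4⟩
  rw [h]
  apply hD.inter_right
  apply IsClosed.inter
  · apply isClosed_iInter
    intro i
    exact ((hev i).prodMk (hev 0)).preimage_isClosed_of_isClosed hDc isClosed_diagonal
  · apply hC.preimage
    fun_prop

theorem comb_exists (P : AffineFlow.{u} G) (C : Set P.E) (q : P.E → F) {y : F} {p : P.E}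
    (hp : p ∈ convexHull ℝ (P.X ∩ q ⁻¹' {y})) (hpC : p ∈ C) :
    ∃ n, ∃ z ∈ BB P C q n, ∑ i, z.1 i • z.2 i = p ∧ q (z.2 0) = y := by
  rw [mem_convexHull_iff_exists_fintype] at hp
  obtain ⟨ι, hι, w, x, h0, h1, hx, hsum⟩ := hp
  have hne : Nonempty ι := by
    by_contra hemp
    rw [not_nonempty_iff] at hemp
    rw [Finset.univ_eq_empty, Finset.sum_empty] at h1
    exact zero_ne_one h1
  obtain ⟨n, hn⟩ : ∃ n, Fintype.card ι = n + 1 :=
    Nat.exists_eq_succ_of_ne_zero Fintype.card_ne_zero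
  let e : Fin (n + 1) ≃ ι := (Fintype.equivFinOfCardEq hn).symm
  have hs : ∑ i, w (e i) • x (e i) = p := by
    rw [← hsum]
    exact Equiv.sum_comp e (fun i => w i • x i)
  refine ⟨n, (w ∘ e, x ∘ e), ⟨⟨fun i => h0 _, ?_⟩, fun i => (hx _).1, ?_, ?_⟩, hs, (hx _).2⟩
  · show ∑ i, w (e i) = 1
    rw [← h1]
    exact Equiv.sum_comp e w
  · intro i
    have h3 : q (x (e i)) = y := (hx _).2
    have h4 : q (x (e 0)) = y := (hx _).2
    show q (x (e i)) = q (x (e 0))
    rw [h3, h4]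
  · show ∑ i, w (e i) • x (e i) ∈ C
    rw [hs]
    exact hpC

theorem comb_mem (P : AffineFlow.{u} G) (C : Set P.E) (q : P.E → F) {n : ℕ}
    {z : (Fin (n + 1) → ℝ) × (Fin (n + 1) → P.E)} (hz : z ∈ BB P C q n) :
    ∑ i, z.1 i • z.2 i ∈ convexHull ℝ (P.X ∩ q ⁻¹' {q (z.2 0)}) :=
  mem_convexHull_of_exists_fintype z.1 z.2 hz.1.1 hz.1.2 (fun i => ⟨hz.2.1 i, hz.2.2.1 i⟩) rfl

/-- invariance of the combinations -/
theorem BB_inv (P : AffineFlow.{u} G) (C : Set P.E) (hC : ∀ g, MapsTo (P.act g) C C) (q : P.E → F)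
    (ρ : G → F → F) (hq : ∀ g, ∀ x ∈ P.K, q (P.act g x) = ρ g (q x)) {n : ℕ}
    {z : (Fin (n + 1) → ℝ) × (Fin (n + 1) → P.E)} (hz : z ∈ BB P C q n) (g : G) :
    (z.1, fun i => P.act g (z.2 i)) ∈ BB P C q n ∧
      ∑ i, z.1 i • P.act g (z.2 i) = P.act g (∑ i, z.1 i • z.2 i) := by
  obtain ⟨h1, h2, h3, h4⟩ := hz
  have hs : ∑ i, z.1 i • P.act g (z.2 i) = P.act g (∑ i, z.1 i • z.2 i) :=
    ((P.affine g).sum P.convex Finset.univ z.1 z.2 (fun i _ => h1.1 i) h1.2
      (fun i _ => P.X_sub (h2 i))).symm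
  refine ⟨⟨h1, fun i => P.X_inv g (h2 i), fun i => ?_, ?_⟩, hs⟩
  · show q (P.act g (z.2 i)) = q (P.act g (z.2 0))
    rw [hq g _ (P.X_sub (h2 i)), hq g _ (P.X_sub (h2 0)), h3 i]
  · show ∑ i, z.1 i • P.act g (z.2 i) ∈ C
    rw [hs]
    exact hC g h4

end comb

/-- Baire category in the closure of the extreme points. -/
theorem baire_step (F : AffineFlow.{u} G) (A : ℕ → Set F.E) (hA : ∀ n, IsClosed (A n))
    (hAinv : ∀ n g, ∀ x ∈ F.X, x ∈ A n → F.act g x ∈ A n) (hcov : F.X ⊆ ⋃ n, A n) (B : Set F.E)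
    (hB : IsClosed B) (hBinv : ∀ g, ∀ x ∈ F.X, x ∈ B → F.act g x ∈ B) (y0 : F.E) (hy0 : y0 ∈ F.X)
    (hy0B : y0 ∉ B) :
    ∃ n, ∃ U : Set F.E, U.Nonempty ∧ U ⊆ F.X ∧ U ⊆ A n ∧ (∀ y ∈ U, y ∉ B) ∧
      (∀ g, MapsTo (F.act g) U U) ∧ ∃ V, IsOpen V ∧ U = V ∩ F.X := by
  have : CompactSpace F.X := isCompact_iff_compactSpace.mp F.X_compact
  let A' : ℕ → Set F.X := fun n => (fun x : F.X => (x : F.E)) ⁻¹' (A n)
  have hA' : ∀ n, IsClosed (A' n) := fun n => (hA n).preimage continuous_subtype_val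
  have hcov' : ⋃ n, A' n = univ := by
    rw [eq_univ_iff_forall]
    intro x
    have := hcov x.2
    rw [mem_iUnion] at this ⊢
    exact this
  have hdense := dense_iUnion_interior_of_closed hA' hcov'
  let O : Set F.X := ((fun x : F.X => (x : F.E)) ⁻¹' B)ᶜ
  have hO : IsOpen O := (hB.preimage continuous_subtype_val).isOpen_compl
  obtain ⟨y, hyO, hyi⟩ := hdense.inter_open_nonempty O hO ⟨⟨y0, hy0⟩, hy0B⟩
  rw [mem_iUnion] at hyi
  obtain ⟨n, hn⟩ := hyi
  let W : Set F.X := interior (A' n) ∩ O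
  have hW : IsOpen W := isOpen_interior.inter hO
  obtain ⟨V, hV, hVW⟩ := isOpen_induced_iff.mp hW
  refine ⟨n, V ∩ F.X, ⟨y, ?_, y.2⟩, inter_subset_right, ?_, ?_, ?_, V, hV, rfl⟩
  · have : y ∈ W := ⟨hn, hyO⟩
    rw [← hVW] at this
    exact this
  · rintro x ⟨hxV, hxX⟩
    have : (⟨x, hxX⟩ : F.X) ∈ W := by
      rw [← hVW]; exact hxV
    have h6 : (⟨x, hxX⟩ : F.X) ∈ A' n := interior_subset this.1
    exact h6
  · rintro x ⟨hxV, hxX⟩
    have : (⟨x, hxX⟩ : F.X) ∈ W := by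
      rw [← hVW]; exact hxV
    exact this.2
  · rintro g x ⟨hxV, hxX⟩
    have hxW : (⟨x, hxX⟩ : F.X) ∈ W := by
      rw [← hVW]; exact hxV
    let σ : G → F.X → F.X := fun h y => ⟨F.act h y, F.X_inv h y.2⟩
    have hσc : ∀ h, Continuous (σ h) := by
      intro h
      apply Continuous.subtype_mk
      exact ((F.act_cont h).mono F.X_sub).domRestrict
    have hσσ : ∀ h y, σ h (σ h⁻¹ y) = y := by
      intro h y
      apply Subtype.ext
      exact F.act_inv h (F.X_sub y.2)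
    have hσσ' : ∀ h y, σ h⁻¹ (σ h y) = y := by
      intro h y
      apply Subtype.ext
      exact F.inv_act h (F.X_sub y.2)
    refine ⟨?_, F.X_inv g hxX⟩
    have h1 : σ g ⟨x, hxX⟩ ∈ W := by
      constructor
      · have h2 : (σ g⁻¹) ⁻¹' (interior (A' n)) ⊆ interior (A' n) := by
          apply interior_maximal
          · intro y hy
            have h3 : σ g⁻¹ y ∈ A' n := interior_subset hy
            have h4 : σ g (σ g⁻¹ y) ∈ A' n := hAinv n g _ (σ g⁻¹ y).2 h3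
            rwa [hσσ] at h4
          · exact isOpen_interior.preimage (hσc g⁻¹)
        apply h2
        show σ g⁻¹ (σ g ⟨x, hxX⟩) ∈ interior (A' n)
        rw [hσσ']
        exact hxW.1
      · intro h3
        have h4 := hBinv g⁻¹ _ (σ g ⟨x, hxX⟩).2 h3
        have h5 : F.act g⁻¹ (F.act g x) = x := F.inv_act g (F.X_sub hxX)
        apply hxW.2
        show x ∈ B
        rw [← h5]
        exact h4
    rw [← hVW] at h1
    exact h1

/-- A functional peaking in a relatively open subset of the closure of the extreme points. -/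
theorem peak_step (F : AffineFlow.{u} G) (U V : Set F.E) (hU : U.Nonempty) (hV : IsOpen V)
    (hUV : U = V ∩ F.X) :
    ∃ b : F.E → ℝ, ContinuousOn b F.K ∧ AffOn F.K b ∧ (∀ y ∈ F.K, b y ≤ 0) ∧
      (∃ y ∈ F.K.extremePoints ℝ, y ∈ U ∧ b y = 0) ∧ ∀ y ∈ F.X, y ∉ U → b y ≤ -1 := by
  -- an extreme point in `U`
  obtain ⟨y0, hy0⟩ := hU
  rw [hUV] at hy0
  obtain ⟨y1, hy1V, hy1⟩ := mem_closure_iff.mp hy0.2 V hV hy0.1
  let S : Set F.E := F.X ∩ Vᶜ
  have hScl : IsClosed S := F.X_closed.inter hV.isClosed_compl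
  have hSK : S ⊆ F.K := fun x hx => F.X_sub hx.1
  have hSc : IsCompact S := F.compact.of_isClosed_subset hScl hSK
  have hD : closure (convexHull ℝ S) ⊆ F.K :=
    closure_minimal (convexHull_min hSK F.convex) F.closed
  have hy1D : y1 ∉ closure (convexHull ℝ S) := by
    intro h
    have h1 : y1 ∈ (closure (convexHull ℝ S)).extremePoints ℝ :=
      inter_extremePoints_subset_extremePoints_of_subset hD ⟨h, hy1⟩
    have h2 := milman (F.compact.of_isClosed_subset isClosed_closure hD)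
      (convex_convexHull ℝ S).closure hSc
      ((subset_convexHull ℝ S).trans subset_closure) le_rfl h1
    exact h2.2 hy1V
  obtain ⟨l, r, hlr, hry⟩ := geometric_hahn_banach_closed_point
    (convex_convexHull ℝ S).closure isClosed_closure hy1D
  -- maximiser
  have hexp : IsExposed ℝ F.K {y ∈ F.K | ∀ z ∈ F.K, l z ≤ l y} := fun _ => ⟨l, rfl⟩
  obtain ⟨m, hmK, hm⟩ := F.compact.exists_isMaxOn ⟨y1, hy1.1⟩ l.continuous.continuousOn
  obtain ⟨y2, hy2⟩ := (hexp.isCompact F.compact).extremePoints_nonempty ⟨m, hmK, hm⟩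
  have hy2e : y2 ∈ F.K.extremePoints ℝ := hexp.isExtreme.extremePoints_subset_extremePoints hy2
  have hmax : ∀ z ∈ F.K, l z ≤ l y2 := hy2.1.2
  have hgt : r < l y2 := lt_of_lt_of_le hry (hmax y1 hy1.1)
  have hpos : 0 < l y2 - r := by linarith
  refine ⟨fun y => (l y - l y2) / (l y2 - r), ?_, ?_, ?_, ⟨y2, hy2e, ?_, ?_⟩, ?_⟩
  · exact ((l.continuous.sub continuous_const).div_const _).continuousOn
  · intro x _ y _ s t _ _ hst
    simp only [map_add, map_smul, smul_eq_mul]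
    have : l y2 = s * l y2 + t * l y2 := by rw [← add_mul, hst, one_mul]
    rw [← mul_div_assoc, ← mul_div_assoc, ← add_div]
    congr 1
    nlinarith
  · intro y hy
    apply div_nonpos_of_nonpos_of_nonneg _ hpos.le
    have := hmax y hy
    linarith
  · rw [hUV]
    have hX : y2 ∈ F.X := subset_closure hy2e
    by_contra hne
    have h1 : y2 ∈ S := ⟨hX, fun h => hne ⟨h, hX⟩⟩
    have h2 := hlr y2 (subset_closure (subset_convexHull ℝ S h1))
    linarith
  · simp
  · intro y hyX hyU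
    have h1 : y ∈ S := ⟨hyX, fun h => hyU (by rw [hUV]; exact ⟨h, hyX⟩)⟩
    have h2 := hlr y (subset_closure (subset_convexHull ℝ S h1))
    show (l y - l y2) / (l y2 - r) ≤ -1
    rw [div_le_iff₀ hpos]
    linarith

end Pool.Agent.Q184.PI
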