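import Mathlib
import Pool.Agent.Q184.PI.Steps

/-!
Proximally irreducible extensions compose.
-/

set_option autoImplicit false

namespace Pool.Agent.Q184.PI

open Topology Filter Set

universe u v w z

variable {G : Type v} [Group G] [TopologicalSpace G]
  {P : AffineFlow.{z} G} {L : AffineFlow.{u} G} {K : AffineFlow.{w} G}

/-- Step 1: over some point of `closure (ext K)` no single atom is bad. -/
theorem step_one (φ : Ext L K) (ψ : Ext P L) (hφ : ProxIrr φ) (hψ : ProxIrr ψ) (C : Set P.E)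
    (hC : IsSubflow P C) (hne : C ≠ P.K) :
    ∃ y ∈ K.X, ∀ p ∈ P.X ∩ C, φ.toFun (ψ.toFun p) ≠ y := by
  by_contra hcon
  push Not at hcon
  apply hne
  let S : Set L.E := ψ.toFun '' (P.X ∩ C)
  have hcomp : IsCompact (P.X ∩ C) := P.X_compact.inter_right hC.compact.isClosed
  have hSc : IsCompact S :=
    hcomp.image_of_continuousOn (ψ.cont.mono (inter_subset_left.trans P.X_sub))
  have hSX : S ⊆ L.X := by
    rintro _ ⟨p, hp, rfl⟩
    exact hψ.maps_X hp.1
  have hSK : S ⊆ L.K := hSX.trans L.X_sub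
  have hinv : ∀ g, MapsTo (L.act g) S S := by
    rintro g _ ⟨p, hp, rfl⟩
    exact ⟨P.act g p, ⟨P.X_inv g hp.1, hC.inv g hp.2⟩, ψ.equiv g p (P.X_sub hp.1)⟩
  have hD := hull_subflow L S hSK hinv
  have heq := hφ _ hD (by
    intro y hy
    obtain ⟨p, hp, hpy⟩ := hcon y hy
    have h1 : ψ.toFun p ∈ S := ⟨p, hp, rfl⟩
    exact ⟨ψ.toFun p, subset_closure (subset_convexHull ℝ S h1),
      subset_convexHull ℝ _ ⟨hSX h1, hpy⟩⟩)
  have hext : L.X ⊆ S := by
    apply closure_minimal _ hSc.isClosed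
    intro x hx
    exact milman L.compact L.convex hSc hSK heq.ge hx
  apply hψ C hC
  intro x hx
  obtain ⟨p, hp, hpx⟩ := hext hx
  exact ⟨p, hp.2, subset_convexHull ℝ _ ⟨hp.1, hpx⟩⟩

/-- The main theorem. -/
theorem proxIrr_comp (φ : Ext L K) (ψ : Ext P L) (hφ : ProxIrr φ) (hψ : ProxIrr ψ) :
    ProxIrr (φ.comp ψ) := by
  intro C₀ hC₀ hmeet
  by_contra hne₀
  -- a point outside and a functional
  obtain ⟨p₀, hp₀K, hp₀⟩ : ∃ p₀ ∈ P.K, p₀ ∉ C₀ := by
    by_contra h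
    push Not at h
    exact hne₀ (hC₀.sub.antisymm h)
  obtain ⟨l, r, hlr, hrp⟩ := geometric_hahn_banach_closed_point hC₀.convex
    hC₀.compact.isClosed hp₀
  let a : P.E → ℝ := fun p => l p - r
  have hac : ContinuousOn a P.K := (l.continuous.sub continuous_const).continuousOn
  have haf : AffOn P.K a := by
    intro x _ y _ s t _ _ hst
    simp only [a, map_add, map_smul, smul_eq_mul]
    have : r = s * r + t * r := by rw [← add_mul, hst, one_mul]
    nlinarith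
  let C : Set P.E := Sub P a
  have hC : IsSubflow P C := sub_subflow P a hac haf
  have hCC : C₀ ⊆ C := by
    intro p hp
    refine ⟨hC₀.sub hp, fun g => ?_⟩
    have := hlr _ (hC₀.inv g hp)
    simp only [a]
    linarith
  have hCne : C ≠ P.K := by
    intro h
    have h1 : p₀ ∈ C := by rw [h]; exact hp₀K
    have h2 := h1.2 1
    rw [P.one p₀ hp₀K] at h2
    simp only [a] at h2
    linarith
  have hCcl : IsClosed C := hC.compact.isClosed
  -- the composed map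
  let q : P.E → K.E := fun p => φ.toFun (ψ.toFun p)
  have hqc : ContinuousOn q P.K := (φ.comp ψ).cont
  have hqX : ContinuousOn q P.X := hqc.mono P.X_sub
  have hqm : MapsTo q P.X K.X := fun p hp => hφ.maps_X (hψ.maps_X hp)
  have hqe : ∀ g, ∀ x ∈ P.K, q (P.act g x) = K.act g (q x) := (φ.comp ψ).equiv
  -- the closed sets
  let A : ℕ → Set K.E := fun n => (fun zz => q (zz.2 0)) '' BB P C q n
  have hAcl : ∀ n, IsClosed (A n) := by
    intro n
    apply IsCompact.isClosed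
    apply (BB_compact P C hCcl q hqX n).image_of_continuousOn
    refine hqX.comp (f := fun z : (Fin (n + 1) → ℝ) × (Fin (n + 1) → P.E) => z.2 0) ?_ ?_
    · exact ((continuous_apply 0).comp continuous_snd).continuousOn
    · intro zz hz
      exact hz.2.1 0
  have hAinv : ∀ n g, ∀ x ∈ K.X, x ∈ A n → K.act g x ∈ A n := by
    rintro n g _ _ ⟨zz, hz, rfl⟩
    have h1 := BB_inv P C hC.inv q (fun g => K.act g) hqe hz g
    refine ⟨_, h1.1, ?_⟩
    exact hqe g _ (P.X_sub (hz.2.1 0))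
  have hcov : K.X ⊆ ⋃ n, A n := by
    intro y hy
    obtain ⟨p, hpC, hp⟩ := hmeet y hy
    obtain ⟨n, zz, hz, _, hy'⟩ := comb_exists P C q hp (hCC hpC)
    rw [mem_iUnion]
    exact ⟨n, zz, hz, hy'⟩
  -- single atoms
  let B : Set K.E := q '' (P.X ∩ C)
  have hBcl : IsClosed B :=
    ((P.X_compact.inter_right hCcl).image_of_continuousOn
      (hqc.mono (inter_subset_left.trans P.X_sub))).isClosed
  have hBinv : ∀ g, ∀ x ∈ K.X, x ∈ B → K.act g x ∈ B := by
    rintro g _ _ ⟨p, hp, rfl⟩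
    exact ⟨P.act g p, ⟨P.X_inv g hp.1, hC.inv g hp.2⟩, hqe g p (P.X_sub hp.1)⟩
  obtain ⟨y0, hy0, hy0B⟩ := step_one φ ψ hφ hψ C hC hCne
  obtain ⟨n, U, hUne, hUX, hUA, hUB, hUinv, V, hV, hUV⟩ := baire_step K A hAcl hAinv hcov B hBcl
    hBinv y0 hy0 (by
      rintro ⟨p, hp, hpy⟩
      exact hy0B p hp hpy)
  obtain ⟨b, hbc, hbf, hb0, ⟨y2, hy2e, hy2U, hby2⟩, hb1⟩ := peak_step K U V hUne hV hUV
  -- a good atom over `y2`
  obtain ⟨p2, hp2e, hp2⟩ := (φ.comp ψ).surj_ext hy2e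
  have hp2X : p2 ∈ P.X := subset_closure hp2e
  have hp2C : p2 ∉ C := fun h => hUB y2 hy2U ⟨p2, ⟨hp2X, h⟩, hp2⟩
  obtain ⟨g, hg⟩ : ∃ g, 0 < a (P.act g p2) := by
    by_contra h
    push Not at h
    exact hp2C ⟨P.X_sub hp2X, h⟩
  -- bound for `a`
  obtain ⟨lam, hlam0, hlam⟩ : ∃ lam : ℝ, 0 ≤ lam ∧ ∀ p ∈ P.K, a p ≤ lam := by
    obtain ⟨M, hM⟩ := P.compact.exists_bound_of_continuousOn hac
    refine ⟨|M|, abs_nonneg M, fun p hp => ?_⟩
    exact (le_abs_self _).trans ((hM p hp).trans (le_abs_self M))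
  let a' : P.E → ℝ := fun p => a p + lam * b (K.act g⁻¹ (q p))
  have hqK : MapsTo q P.K K.K := (φ.comp ψ).maps
  have ha'c : ContinuousOn a' P.K := by
    apply hac.add
    apply ContinuousOn.mul continuousOn_const
    exact hbc.comp ((K.act_cont g⁻¹).comp hqc hqK) (fun p hp => K.maps g⁻¹ (hqK hp))
  have ha'f : AffOn P.K a' := by
    intro x hx y hy s t hs ht hst
    simp only [a']
    have e1 : q (s • x + t • y) = s • q x + t • q y := (φ.comp ψ).affine x hx y hy s t hs ht hst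
    rw [haf x hx y hy s t hs ht hst, e1, K.affine g⁻¹ _ (hqK hx) _ (hqK hy) s t hs ht hst,
      hbf _ (K.maps g⁻¹ (hqK hx)) _ (K.maps g⁻¹ (hqK hy)) s t hs ht hst]
    simp only [smul_eq_mul]
    ring
  have ha'le : ∀ p ∈ P.K, a' p ≤ a p := by
    intro p hp
    have h1 := hb0 _ (K.maps g⁻¹ (hqK hp))
    simp only [a']
    nlinarith
  have hC' : IsSubflow P (Sub P a') := sub_subflow P a' ha'c ha'f
  have hsubC : C ⊆ Sub P a' := by
    rintro p ⟨hp, hp'⟩
    exact ⟨hp, fun h => (ha'le _ (P.maps h hp)).trans (hp' h)⟩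
  have hne' : Sub P a' ≠ P.K := by
    intro h
    have h1 : p2 ∈ Sub P a' := by rw [h]; exact P.X_sub hp2X
    have h2 := h1.2 g
    have h3 : K.act g⁻¹ (q (P.act g p2)) = y2 := by
      rw [hqe g p2 (P.X_sub hp2X), K.inv_act g (hqK (P.X_sub hp2X))]
      exact hp2
    simp only [a'] at h2
    rw [h3, hby2] at h2
    linarith
  obtain ⟨x, hxX, hx⟩ : ∃ x ∈ L.X,
      ¬ (Sub P a' ∩ convexHull ℝ (P.X ∩ ψ.toFun ⁻¹' {x})).Nonempty := by
    by_contra h
    push Not at h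
    exact hne' (hψ _ hC' h)
  -- `φ x ∈ U`
  have hφxU : φ.toFun x ∈ U := by
    by_contra hnU
    obtain ⟨p, hpX, hpx⟩ := ψ.surj_X hxX
    apply hx
    refine ⟨p, ⟨P.X_sub hpX, fun h => ?_⟩, subset_convexHull ℝ _ ⟨hpX, hpx⟩⟩
    have hpK := P.X_sub hpX
    have h1 : K.act g⁻¹ (q (P.act h p)) = K.act (g⁻¹ * h) (φ.toFun x) := by
      rw [hqe h p hpK, K.mul _ _ _ (φ.maps (L.X_sub hxX))]
      simp only [q]
      rw [hpx]
    have hφX : φ.toFun x ∈ K.X := hφ.maps_X hxX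
    have h2 : K.act (g⁻¹ * h) (φ.toFun x) ∉ U := by
      intro h3
      apply hnU
      have h4 := hUinv (g⁻¹ * h)⁻¹ h3
      rwa [K.inv_act _ (K.X_sub hφX)] at h4
    have h3 := hb1 _ (K.X_inv _ hφX) h2
    have h4 := hlam _ (P.maps h hpK)
    simp only [a']
    rw [h1]
    nlinarith
  -- the closed set of bad points of `L`
  let Z : Set L.E := (fun zz => ψ.toFun (zz.2 0)) '' BB P C ψ.toFun n
  have hψX : ContinuousOn ψ.toFun P.X := ψ.cont.mono P.X_sub
  have hZcl : IsClosed Z := by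
    apply IsCompact.isClosed
    apply (BB_compact P C hCcl ψ.toFun hψX n).image_of_continuousOn
    refine hψX.comp (f := fun z : (Fin (n + 1) → ℝ) × (Fin (n + 1) → P.E) => z.2 0) ?_ ?_
    · exact ((continuous_apply 0).comp continuous_snd).continuousOn
    · intro zz hz
      exact hz.2.1 0
  have hxZ : x ∉ Z := by
    rintro ⟨zz, hz, hzx⟩
    apply hx
    have h1 := comb_mem P C ψ.toFun hz
    simp only at hzx
    rw [hzx] at h1
    exact ⟨_, hsubC hz.2.2.2, h1⟩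
  -- an extreme point of `L` near `x`
  have hxcl : (𝓝[L.K.extremePoints ℝ] x).NeBot := mem_closure_iff_nhdsWithin_neBot.mp hxX
  have hφV : ∀ᶠ x' in 𝓝[L.K] x, φ.toFun x' ∈ V := by
    have h1 : φ.toFun x ∈ V := by rw [hUV] at hφxU; exact hφxU.1
    exact (φ.cont x (L.X_sub hxX)).eventually (hV.mem_nhds h1)
  have hev1 : ∀ᶠ x' in 𝓝[L.K.extremePoints ℝ] x, φ.toFun x' ∈ V :=
    hφV.filter_mono (nhdsWithin_mono x extremePoints_subset)
  have hZn : ∀ᶠ x' in 𝓝 x, x' ∉ Z := hZcl.isOpen_compl.mem_nhds hxZ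
  have hev2 : ∀ᶠ x' in 𝓝[L.K.extremePoints ℝ] x, x' ∉ Z := hZn.filter_mono nhdsWithin_le_nhds
  obtain ⟨z', ⟨hz'V, hz'Z⟩, hz'e⟩ := ((hev1.and hev2).and self_mem_nhdsWithin).exists
  have hz'X : z' ∈ L.X := subset_closure hz'e
  have hz'U : φ.toFun z' ∈ U := by rw [hUV]; exact ⟨hz'V, hφ.maps_X hz'X⟩
  -- the subflow generated by the chosen combinations
  let T : Set P.E := {p | ∃ m, ∃ zz ∈ BB P C q m, (q (zz.2 0) ∈ U → m = n) ∧
    ∑ i, zz.1 i • zz.2 i = p}
  have hTK : T ⊆ P.K := by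
    rintro _ ⟨m, zz, hz, _, rfl⟩
    exact hC.sub hz.2.2.2
  have hTinv : ∀ g, ∀ p ∈ T, P.act g p ∈ T := by
    rintro h _ ⟨m, zz, hz, hm, rfl⟩
    have h1 := BB_inv P C hC.inv q (fun g => K.act g) hqe hz h
    refine ⟨m, _, h1.1, ?_, h1.2⟩
    intro h2
    apply hm
    have h3 : q (P.act h (zz.2 0)) ∈ U := h2
    rw [hqe h _ (P.X_sub (hz.2.1 0))] at h3
    have h4 := hUinv h⁻¹ h3
    rwa [K.inv_act h (hqK (P.X_sub (hz.2.1 0)))] at h4
  let S : Set L.E := ψ.toFun '' T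
  have hSK : S ⊆ L.K := by
    rintro _ ⟨p, hp, rfl⟩
    exact ψ.maps (hTK hp)
  have hSinv : ∀ g, MapsTo (L.act g) S S := by
    rintro h _ ⟨p, hp, rfl⟩
    exact ⟨P.act h p, hTinv h p hp, ψ.equiv h p (hTK hp)⟩
  have hsumψ : ∀ (m : ℕ) (zz : (Fin (m + 1) → ℝ) × (Fin (m + 1) → P.E)), zz ∈ BB P C q m →
      ψ.toFun (∑ i, zz.1 i • zz.2 i) = ∑ i, zz.1 i • ψ.toFun (zz.2 i) := by
    intro m zz hz
    exact ψ.affine.sum P.convex Finset.univ zz.1 zz.2 (fun i _ => hz.1.1 i) hz.1.2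
      (fun i _ => P.X_sub (hz.2.1 i))
  have heq := hφ _ (hull_subflow L S hSK hSinv) (by
    intro y hy
    have key : ∃ m, ∃ zz ∈ BB P C q m, (q (zz.2 0) ∈ U → m = n) ∧ q (zz.2 0) = y := by
      by_cases hyU : y ∈ U
      · obtain ⟨zz, hz, hzy⟩ := hUA hyU
        exact ⟨n, zz, hz, fun _ => rfl, hzy⟩
      · obtain ⟨m, hm⟩ := mem_iUnion.mp (hcov hy)
        obtain ⟨zz, hz, hzy⟩ := hm
        refine ⟨m, zz, hz, fun h => ?_, hzy⟩
        exfalso
        apply hyU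
        rw [← hzy]
        exact h
    obtain ⟨m, zz, hz, hm, hzy⟩ := key
    refine ⟨ψ.toFun (∑ i, zz.1 i • zz.2 i), ?_, ?_⟩
    · apply subset_closure
      apply subset_convexHull
      exact ⟨_, ⟨m, zz, hz, hm, rfl⟩, rfl⟩
    · rw [hsumψ m zz hz]
      refine mem_convexHull_of_exists_fintype zz.1 (fun i => ψ.toFun (zz.2 i)) hz.1.1 hz.1.2 ?_ rfl
      intro i
      refine ⟨hψ.maps_X (hz.2.1 i), ?_⟩
      show φ.toFun (ψ.toFun (zz.2 i)) = y
      rw [← hzy]
      exact hz.2.2.1 i)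
  have hz'S : z' ∈ closure S := by
    apply milman L.compact L.convex
      (L.compact.of_isClosed_subset isClosed_closure (closure_minimal hSK L.closed))
      (closure_minimal hSK L.closed) _ hz'e
    rw [← heq]
    exact closure_mono (convexHull_mono subset_closure)
  -- only combinations with `n + 1` atoms matter near `z'`
  let S' : Set L.E := ψ.toFun '' ((fun zz => ∑ i, zz.1 i • zz.2 i) '' BB P C q n)
  have hS'cl : IsClosed S' := by
    apply IsCompact.isClosed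
    apply IsCompact.image_of_continuousOn
    · apply (BB_compact P C hCcl q hqX n).image_of_continuousOn
      have : Continuous (fun zz : (Fin (n + 1) → ℝ) × (Fin (n + 1) → P.E) =>
          ∑ i, zz.1 i • zz.2 i) := by fun_prop
      exact this.continuousOn
    · apply ψ.cont.mono
      rintro _ ⟨zz, hz, rfl⟩
      exact hC.sub hz.2.2.2
  have hz'S' : z' ∈ S' := by
    rw [← hS'cl.closure_eq, mem_closure_iff_nhdsWithin_neBot]
    have h1 : (𝓝[S] z').NeBot := mem_closure_iff_nhdsWithin_neBot.mp hz'S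
    have h2 : ∀ᶠ x' in 𝓝[S] z', φ.toFun x' ∈ V :=
      ((φ.cont z' (L.X_sub hz'X)).eventually (hV.mem_nhds hz'V)).filter_mono
        (nhdsWithin_mono z' hSK)
    have h3 : ∀ᶠ x' in 𝓝[S] z', x' ∈ S' := by
      filter_upwards [h2, self_mem_nhdsWithin] with x' hx'V hx'S
      obtain ⟨p, ⟨m, zz, hz, hm, rfl⟩, rfl⟩ := hx'S
      have h4 : φ.toFun (ψ.toFun (∑ i, zz.1 i • zz.2 i)) = q (zz.2 0) := by
        have h5 := (φ.comp ψ).affine.sum P.convex Finset.univ zz.1 zz.2 (fun i _ => hz.1.1 i) hz.1.2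
          (fun i _ => P.X_sub (hz.2.1 i))
        have h6 : ∀ i, (φ.comp ψ).toFun (zz.2 i) = q (zz.2 0) := hz.2.2.1
        have h7 : ∑ i, zz.1 i • (φ.comp ψ).toFun (zz.2 i) = q (zz.2 0) := by
          simp only [h6]
          rw [← Finset.sum_smul, hz.1.2, one_smul]
        rw [h7] at h5
        exact h5
      rw [h4] at hx'V
      have h5 : q (zz.2 0) ∈ U := by
        rw [hUV]
        exact ⟨hx'V, hqm (hz.2.1 0)⟩
      have h6 := hm h5
      subst h6
      exact ⟨_, ⟨zz, hz, rfl⟩, rfl⟩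
    have h4 : 𝓝[S] z' ≤ 𝓝[S'] z' := by
      apply le_inf nhdsWithin_le_nhds
      rw [le_principal_iff]
      exact h3
    exact h1.mono h4
  obtain ⟨_, ⟨zz, hz, rfl⟩, hzz⟩ := hz'S'
  -- the atoms lie over `z'`
  simp only at hzz
  rw [hsumψ n zz hz] at hzz
  have hatoms : ∀ i, 0 < zz.1 i → ψ.toFun (zz.2 i) = z' := by
    intro i hi
    exact ext_atoms L.convex hz'e zz.1 (fun i => ψ.toFun (zz.2 i)) hz.1.1 hz.1.2
      (fun i => ψ.maps (P.X_sub (hz.2.1 i))) hzz i hi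
  obtain ⟨j, hj⟩ : ∃ j, 0 < zz.1 j := by
    by_contra h
    push Not at h
    have h1 : ∑ i, zz.1 i ≤ 0 := Finset.sum_nonpos (fun i _ => h i)
    rw [hz.1.2] at h1
    linarith
  -- replace the atoms of weight zero
  classical
  let x2 : Fin (n + 1) → P.E := fun i => if 0 < zz.1 i then zz.2 i else zz.2 j
  have hx2 : ∀ i, ψ.toFun (x2 i) = z' := by
    intro i
    simp only [x2]
    split_ifs with h
    · exact hatoms i h
    · exact hatoms j hj
  have hsum2 : ∑ i, zz.1 i • x2 i = ∑ i, zz.1 i • zz.2 i := by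
    apply Finset.sum_congr rfl
    intro i _
    simp only [x2]
    split_ifs with h
    · rfl
    · have h0 : zz.1 i = 0 := le_antisymm (not_lt.mp h) (hz.1.1 i)
      rw [h0, zero_smul, zero_smul]
  apply hz'Z
  refine ⟨(zz.1, x2), ⟨hz.1, ?_, ?_, ?_⟩, hx2 0⟩
  · intro i
    show x2 i ∈ P.X
    simp only [x2]
    split_ifs
    · exact hz.2.1 i
    · exact hz.2.1 j
  · intro i
    show ψ.toFun (x2 i) = ψ.toFun (x2 0)
    rw [hx2, hx2]
  · show ∑ i, zz.1 i • x2 i ∈ C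
    rw [hsum2]
    exact hz.2.2.2

end Pool.Agent.Q184.PI
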